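import Pool.Agent.Y667.RZ.Stm2
import Pool.Agent.Y285.RZ.CVZ

/-!
# Job 533 (helper890): from pairs to curves, exact orders
-/

set_option autoImplicit false

namespace Pool.Agent.Y890.RZ

open Finset Pool.Agent.W262.RK Pool.Agent.W307.RT Pool.Agent.W307.RS Pool.Agent.W307.SE
  Pool.Agent.W307.FK Pool.Agent.Y667.RP Pool.Agent.Y667.RZ
open Pool.Agent.Y285.RP Pool.Agent.Y285.RZ

/-- the curve of a pair: order of the Selmer group and rank -/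
theorem tgw (hS : St_SELC2) {a b k : ℤ} (h : a + b = 3 * k) (hb : 1 ≤ b) (hab : b < a)
    (hf : (Sel a b).Finite) : (SelR (cc a b k).1 (cc a b k).2).Finite ∧
      (SelR (cc a b k).1 (cc a b k).2).ncard = (Sel a b).ncard ∧
      (1 ≤ Module.finrank ℤ (Sh (cc a b k).1 (cc a b k).2).toAffine.Point →
        2 ^ (Module.finrank ℤ (Sh (cc a b k).1 (cc a b k).2).toAffine.Point + 2) ≤
          (Sel a b).ncard) := by
  have hD : 4 * (cc a b k).1 ^ 3 + 27 * (cc a b k).2 ^ 2 ≠ 0 := by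
    rw [cc_disc h]
    have ha0 : a ≠ 0 := by intro h; linarith
    have hb0 : b ≠ 0 := by intro h; linarith
    have hab0 : a - b ≠ 0 := by intro h; linarith
    have : 0 < a ^ 2 * b ^ 2 * (a - b) ^ 2 := by positivity
    intro h
    linarith
  obtain ⟨h1, h2⟩ := hS _ _ _ _ _ a b 1 hD (cc_root h) one_ne_zero
    (by push_cast; ring) (by push_cast; ring) hf
  refine ⟨h1, h2, fun hr => ?_⟩
  rw [← h2]
  exact Pool.Agent.Y155.RP.RK2 _ _ _ _ _ hD (cc_root h) h1 hr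

/-- the target for the order `4` -/
def T4 (k : ℤ × ℤ) : Prop := (SelR k.1 k.2).Finite ∧
  (SelR k.1 k.2).ncard = 4 ∧ Module.finrank ℤ (Sh k.1 k.2).toAffine.Point = 0

/-- the target for the order `8` -/
def T8 (k : ℤ × ℤ) : Prop := (SelR k.1 k.2).Finite ∧
  (SelR k.1 k.2).ncard = 8 ∧ Module.finrank ℤ (Sh k.1 k.2).toAffine.Point ≤ 1

theorem tg4 (hS : St_SELC2) {a b k : ℤ} (h : a + b = 3 * k) (hb : 1 ≤ b) (hab : b < a)
    (hf : (Sel a b).Finite) (hn : (Sel a b).ncard = 4) : T4 (cc a b k) := by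
  obtain ⟨h1, h2, h3⟩ := tgw hS h hb hab hf
  refine ⟨h1, h2.trans hn, ?_⟩
  by_contra hr
  have h4 := h3 (Nat.one_le_iff_ne_zero.2 hr)
  have h5 : 2 ^ 3 ≤ 2 ^ (Module.finrank ℤ (Sh (cc a b k).1 (cc a b k).2).toAffine.Point + 2) :=
    Nat.pow_le_pow_right (by norm_num) (by omega)
  omega

theorem tg8 (hS : St_SELC2) {a b k : ℤ} (h : a + b = 3 * k) (hb : 1 ≤ b) (hab : b < a)
    (hf : (Sel a b).Finite) (hn : (Sel a b).ncard = 8) : T8 (cc a b k) := by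
  obtain ⟨h1, h2, h3⟩ := tgw hS h hb hab hf
  refine ⟨h1, h2.trans hn, ?_⟩
  by_contra hr
  have h4 := h3 (by omega)
  have h5 : 2 ^ 4 ≤ 2 ^ (Module.finrank ℤ (Sh (cc a b k).1 (cc a b k).2).toAffine.Point + 2) :=
    Nat.pow_le_pow_right (by norm_num) (by omega)
  omega

/-- what is known about the good pairs -/
lemma factsW {X : ℕ} {t : ℕ × ℕ} (ht1 : t ∈ Icc 1 X ×ˢ Icc 1 X) (ht : GoodW X t) :
    (t.1 : ℤ) + t.2 = 3 * (((t.1 + t.2) / 3 : ℕ) : ℤ) ∧ (1 : ℤ) ≤ t.2 ∧ (t.2 : ℤ) < t.1 ∧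
      (t.1 : ℤ) ≤ X ∧ IsCoprime (t.1 : ℤ) (t.2 : ℤ) ∧ (t.1 : ℤ) % 17 = 1 ∧ (t.2 : ℤ) % 17 = 15 ∧
      (Sel (t.1 : ℤ) (t.2 : ℤ)).Finite ∧ (Sel (17 * (t.1 : ℤ)) (17 * (t.2 : ℤ))).Finite := by
  rw [mem_product, mem_Icc, mem_Icc] at ht1
  obtain ⟨g1, g2⟩ := ht1
  obtain ⟨g3, g4, g5, g6, g7, g8, g9, g10, g11, g12, g13, -⟩ := ht
  exact ⟨by omega, by omega, by omega, by omega, Nat.isCoprime_iff_coprime.2 g11, by omega,
      by omega, g12, g13⟩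

open Classical in
/-- the curve of the pair itself -/
lemma inj1 {X H : ℕ} (hX2 : 64 * (17 * X) ^ 6 ≤ H) (G : Finset (ℕ × ℕ))
    (hG : ∀ t ∈ G, t ∈ Icc 1 X ×ˢ Icc 1 X ∧ GoodW X t) (T : ℤ × ℤ → Prop)
    (hT : ∀ t ∈ G, T (cc (t.1 : ℤ) (t.2 : ℤ) (((t.1 + t.2) / 3 : ℕ) : ℤ))) :
    G.card ≤ ((Cv 2 H).filter T).card := by
  apply card_le_card_of_injOn
      (fun t => cc (t.1 : ℤ) (t.2 : ℤ) (((t.1 + t.2) / 3 : ℕ) : ℤ))
  · intro t ht
    rw [mem_coe] at ht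
    obtain ⟨f1, f2, f3, f4, f5, f6, f7, -⟩ := factsW (hG t ht).1 (hG t ht).2
    have hX4 : 64 * X ^ 6 ≤ H := by
      refine le_trans ?_ hX2
      gcongr
      omega
    have hm := cc_mem' f1 f2 f3 f4 (mn1 f1 f5) hX4
    rw [mem_coe, mem_filter]
    exact ⟨hm, hT t ht⟩
  · intro t ht t' ht' he
    rw [mem_coe] at ht ht'
    obtain ⟨f1, f2, f3, -⟩ := factsW (hG t ht).1 (hG t ht).2
    obtain ⟨f1', f2', f3', -⟩ := factsW (hG t' ht').1 (hG t' ht').2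
    obtain ⟨r1, r2⟩ := cc_inj f1 f1' f2 f3 f2' f3' he
    exact Prod.ext (by exact_mod_cast r1) (by exact_mod_cast r2)

open Classical in
/-- the twist by `17` -/
lemma inj17 {X H : ℕ} (hX2 : 64 * (17 * X) ^ 6 ≤ H) (G : Finset (ℕ × ℕ))
    (hG : ∀ t ∈ G, t ∈ Icc 1 X ×ˢ Icc 1 X ∧ GoodW X t) (T : ℤ × ℤ → Prop)
    (hT : ∀ t ∈ G, T (cc (17 * (t.1 : ℤ)) (17 * (t.2 : ℤ)) (17 * (((t.1 + t.2) / 3 : ℕ) : ℤ)))) :
    G.card ≤ ((Cv 2 H).filter T).card := by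
  apply card_le_card_of_injOn
      (fun t => cc (17 * (t.1 : ℤ)) (17 * (t.2 : ℤ)) (17 * (((t.1 + t.2) / 3 : ℕ) : ℤ)))
  · intro t ht
    rw [mem_coe] at ht
    obtain ⟨f1, f2, f3, f4, f5, f6, f7, -⟩ := factsW (hG t ht).1 (hG t ht).2
    have q1 : 17 * (t.1 : ℤ) + 17 * t.2 = 3 * (17 * (((t.1 + t.2) / 3 : ℕ) : ℤ)) := by
      linarith
    have hm := cc_mem' (X := 17 * X) q1 (by linarith) (by linarith)
      (by push_cast; linarith) (mn17 f1 f5 f6 f7) hX2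
    rw [mem_coe, mem_filter]
    exact ⟨hm, hT t ht⟩
  · intro t ht t' ht' he
    rw [mem_coe] at ht ht'
    obtain ⟨f1, f2, f3, -⟩ := factsW (hG t ht).1 (hG t ht).2
    obtain ⟨f1', f2', f3', -⟩ := factsW (hG t' ht').1 (hG t' ht').2
    have q1 : 17 * (t.1 : ℤ) + 17 * t.2 = 3 * (17 * (((t.1 + t.2) / 3 : ℕ) : ℤ)) := by
      linarith
    have q1' : 17 * (t'.1 : ℤ) + 17 * t'.2 = 3 * (17 * (((t'.1 + t'.2) / 3 : ℕ) : ℤ)) := by
      linarith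
    obtain ⟨r1, r2⟩ := cc_inj q1 q1' (by linarith) (by linarith) (by linarith) (by linarith) he
    have r1' : (t.1 : ℤ) = t'.1 := by linarith
    have r2' : (t.2 : ℤ) = t'.2 := by linarith
    exact Prod.ext (by exact_mod_cast r1') (by exact_mod_cast r2')

/-- the choice of the size and the number of all curves -/
lemma size_exists (X0 H : ℕ) (hH : 64 * (17 * max X0 1) ^ 6 ≤ H) :
    ∃ X : ℕ, X0 ≤ X ∧ 64 * (17 * X) ^ 6 ≤ H ∧ (Cv 2 H).card ≤ 80000 * X ^ 2 := by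
  have hex : ∃ X : ℕ, max X0 1 ≤ X ∧ 64 * (17 * X) ^ 6 ≤ H ∧ H < 64 * (17 * (X + 1)) ^ 6 := by
    set P : ℕ → Prop := fun X => 64 * (17 * X) ^ 6 ≤ H with hP
    have hle : max X0 1 ≤ H := by
      have h1 : 17 * max X0 1 ≤ (17 * max X0 1) ^ 6 := Nat.le_self_pow (by norm_num) _
      omega
    refine ⟨Nat.findGreatest P H, Nat.le_findGreatest hle hH, ?_, ?_⟩
    · exact Nat.findGreatest_spec (P := P) hle hH
    · by_contra hlt
      push Not at hlt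
      have h2 : Nat.findGreatest P H + 1 ≤ H := by
        have h1 : (17 * (Nat.findGreatest P H + 1)) ≤ (17 * (Nat.findGreatest P H + 1)) ^ 6 :=
          Nat.le_self_pow (by norm_num) _
        omega
      exact Nat.findGreatest_is_greatest (P := P) (Nat.lt_succ_self _) h2 hlt
  obtain ⟨X, hX1, hX2, hX3⟩ := hex
  have hXX0 : X0 ≤ X := (le_max_left _ _).trans hX1
  have hX11 : 1 ≤ X := (le_max_right _ _).trans hX1
  have h2 : (Cv 2 H).card ≤ (4 * (34 * (X + 1)) + 1) ^ 2 := by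
    apply cv_card _ _ (by omega)
    have : (34 * (X + 1)) ^ 6 = 64 * (17 * (X + 1)) ^ 6 := by ring
    omega
  refine ⟨X, hXX0, hX2, h2.trans ?_⟩
  have : 4 * (34 * (X + 1)) + 1 ≤ 273 * X := by omega
  calc (4 * (34 * (X + 1)) + 1) ^ 2 ≤ (273 * X) ^ 2 := by gcongr
    _ = 74529 * X ^ 2 := by ring
    _ ≤ 80000 * X ^ 2 := by gcongr; norm_num

/-- **CVW**: from pairs to curves, exact orders. -/
theorem CVW (h : St_SELC2) : St_CVW := by
  classical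
  rintro ⟨c, hc, X0, hX0⟩
  refine ⟨c / 160000, by positivity, 64 * (17 * max X0 1) ^ 6, fun H hH => ?_⟩
  obtain ⟨X, hXX0, hX2, h3⟩ := size_exists X0 H hH
  have h1 := hX0 X hXX0
  set G := (Icc 1 X ×ˢ Icc 1 X).filter (GoodW X) with hG
  set p : ℕ × ℕ → Prop := fun t => (Sel (t.1 : ℤ) (t.2 : ℤ)).ncard = 4 with hp
  have hmem : ∀ t ∈ G, t ∈ Icc 1 X ×ˢ Icc 1 X ∧ GoodW X t := by
    intro t ht
    rw [hG, mem_filter] at ht
    exact ht
  have hmem1 : ∀ t ∈ G.filter p, t ∈ Icc 1 X ×ˢ Icc 1 X ∧ GoodW X t :=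
    fun t ht => hmem t (mem_filter.1 ht).1
  have hmem2 : ∀ t ∈ G.filter (fun t => ¬ p t), t ∈ Icc 1 X ×ˢ Icc 1 X ∧ GoodW X t :=
    fun t ht => hmem t (mem_filter.1 ht).1
  have ord1 : ∀ t ∈ G.filter p, (Sel (t.1 : ℤ) (t.2 : ℤ)).ncard = 4 ∧
      (Sel (17 * (t.1 : ℤ)) (17 * (t.2 : ℤ))).ncard = 8 := by
    intro t ht
    have hpt : (Sel (t.1 : ℤ) (t.2 : ℤ)).ncard = 4 := (mem_filter.1 ht).2
    obtain ⟨-, -, -, -, -, -, -, -, -, -, -, g | g⟩ := (hmem1 t ht).2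
    · exact g
    · rw [hpt] at g
      exact absurd g.1 (by norm_num)
  have ord2 : ∀ t ∈ G.filter (fun t => ¬ p t), (Sel (t.1 : ℤ) (t.2 : ℤ)).ncard = 8 ∧
      (Sel (17 * (t.1 : ℤ)) (17 * (t.2 : ℤ))).ncard = 4 := by
    intro t ht
    have hpt : ¬ (Sel (t.1 : ℤ) (t.2 : ℤ)).ncard = 4 := (mem_filter.1 ht).2
    obtain ⟨-, -, -, -, -, -, -, -, -, -, -, g | g⟩ := (hmem2 t ht).2
    · exact absurd g.1 hpt
    · exact g
  have a1 : (G.filter p).card ≤ ((Cv 2 H).filter T4).card := by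
    refine inj1 hX2 _ hmem1 T4 fun t ht => ?_
    obtain ⟨f1, f2, f3, f4, f5, f6, f7, f8, f9⟩ := factsW (hmem1 t ht).1 (hmem1 t ht).2
    exact tg4 h f1 f2 f3 f8 (ord1 t ht).1
  have a2 : (G.filter (fun t => ¬ p t)).card ≤ ((Cv 2 H).filter T4).card := by
    refine inj17 hX2 _ hmem2 T4 fun t ht => ?_
    obtain ⟨f1, f2, f3, f4, f5, f6, f7, f8, f9⟩ := factsW (hmem2 t ht).1 (hmem2 t ht).2
    exact tg4 h (by linarith) (by linarith) (by linarith) f9 (ord2 t ht).2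
  have b1 : (G.filter p).card ≤ ((Cv 2 H).filter T8).card := by
    refine inj17 hX2 _ hmem1 T8 fun t ht => ?_
    obtain ⟨f1, f2, f3, f4, f5, f6, f7, f8, f9⟩ := factsW (hmem1 t ht).1 (hmem1 t ht).2
    exact tg8 h (by linarith) (by linarith) (by linarith) f9 (ord1 t ht).2
  have b2 : (G.filter (fun t => ¬ p t)).card ≤ ((Cv 2 H).filter T8).card := by
    refine inj1 hX2 _ hmem2 T8 fun t ht => ?_
    obtain ⟨f1, f2, f3, f4, f5, f6, f7, f8, f9⟩ := factsW (hmem2 t ht).1 (hmem2 t ht).2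
    exact tg8 h f1 f2 f3 f8 (ord2 t ht).1
  have hsum := card_filter_add_card_filter_not (s := G) p
  have k4 : G.card ≤ 2 * ((Cv 2 H).filter T4).card := by omega
  have k8 : G.card ≤ 2 * ((Cv 2 H).filter T8).card := by omega
  have h3' : ((Cv 2 H).card : ℝ) ≤ 80000 * (X : ℝ) ^ 2 := by exact_mod_cast h3
  have h4' : (G.card : ℝ) ≤ 2 * (((Cv 2 H).filter T4).card : ℝ) := by exact_mod_cast k4
  have h8' : (G.card : ℝ) ≤ 2 * (((Cv 2 H).filter T8).card : ℝ) := by exact_mod_cast k8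
  have h5 : c / 160000 * ((Cv 2 H).card : ℝ) ≤ c / 160000 * (80000 * (X : ℝ) ^ 2) := by gcongr
  have h6 : c * (X : ℝ) ^ 2 ≤ (G.card : ℝ) := h1
  have h7 : c / 160000 * (80000 * (X : ℝ) ^ 2) = c * (X : ℝ) ^ 2 / 2 := by ring
  constructor
  · have e : ((Cv 2 H).filter T4) = ((Cv 2 H).filter (fun k : ℤ × ℤ => (SelR k.1 k.2).Finite ∧
      (SelR k.1 k.2).ncard = 4 ∧ Module.finrank ℤ (Sh k.1 k.2).toAffine.Point = 0)) := by
      ext k
      rw [mem_filter, mem_filter]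
      rfl
    rw [← e]
    linarith
  · have e : ((Cv 2 H).filter T8) = ((Cv 2 H).filter (fun k : ℤ × ℤ => (SelR k.1 k.2).Finite ∧
      (SelR k.1 k.2).ncard = 8 ∧ Module.finrank ℤ (Sh k.1 k.2).toAffine.Point ≤ 1)) := by
      ext k
      rw [mem_filter, mem_filter]
      rfl
    rw [← e]
    linarith

end Pool.Agent.Y890.RZ
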